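import Pool.Agent.Q278.FracMyc

/-!
# MP_2248a2: chromatic discrepancy versus `χ - ω`

The inequality `φ(G) ≥ χ(G) - ω(G)` fails, and the constant `1/2` in the known bound
`φ(G) ≥ (χ(G) - ω(G)) / 2` is best possible: for every `ε > 0` there is a graph with
`φ(G) ≤ (1/2 + ε) (χ(G) - ω(G))` and `χ(G) > ω(G)`.
-/

namespace Pool.Agent.Results.MP_2248a2_co.HalfIsSharp

open Finset

/-- The chromatic discrepancy `φ(G)`: the least `d` such that `G` has a proper colouring in which
every induced subgraph `H` (given by its vertex set `S`) receives at most `χ(H) + d` distinct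
colours. -/
noncomputable def chromaticDiscrepancy {V : Type*} (G : SimpleGraph V) : ℕ :=
  sInf {d : ℕ | ∃ c : G.Coloring ℕ, ∀ S : Finset V,
    (((S.image c).card : ℕ) : ℕ∞) ≤ (G.induce (S : Set V)).chromaticNumber + (d : ℕ∞)}

section

variable {X : Type} [Fintype X] [DecidableEq X] {T : SimpleGraph X} {a : ℕ}

/-- an induced subgraph of the complement of a triangle-free graph with `s` vertices has
chromatic number at least `s / 2` -/
theorem card_le_of_colorable (htri : ∀ x y z, T.Adj x y → T.Adj y z → ¬ T.Adj x z)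
    (S : Finset X) {m : ℕ} (h : (Tᶜ.induce (S : Set X)).Colorable m) : S.card ≤ 2 * m := by
  obtain ⟨c⟩ := h
  by_contra hcon
  push Not at hcon
  obtain ⟨i, hi⟩ := Fintype.exists_lt_card_fiber_of_mul_lt_card (n := 2)
    (f := fun v : (S : Set X) => c v) (by
      rw [Fintype.card_fin]
      simpa [mul_comm] using hcon)
  obtain ⟨x, y, z, hx, hy, hz, hxy, hxz, hyz⟩ := Finset.two_lt_card_iff.1 hi
  simp only [mem_filter, mem_univ, true_and] at hx hy hz
  have key : ∀ u v : (S : Set X), c u = i → c v = i → u ≠ v → T.Adj u.1 v.1 := by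
    intro u v hu hv huv
    by_contra hT
    have : (Tᶜ.induce (S : Set X)).Adj u v := by
      rw [SimpleGraph.comap_adj]
      exact (SimpleGraph.compl_adj _ _ _).2 ⟨fun h => huv (Subtype.ext h), hT⟩
    exact c.valid this (hu.trans hv.symm)
  exact htri _ _ _ (key x y hx hy hxy) (key y z hy hz hyz) (key x z hx hz hxz)

/-- colouring of the complement by a maximal matching -/
theorem exists_coloring (ha : ∀ I : Finset X, (∀ x ∈ I, ∀ y ∈ I, ¬ T.Adj x y) → I.card ≤ a)
    (S : Finset X) : ∃ f : X → ℕ, (∀ u ∈ S, ∀ v ∈ S, u ≠ v → f u = f v → T.Adj u v) ∧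
      2 * (S.image f).card ≤ S.card + a := by
  induction S using Finset.strongInduction with
  | H S ih =>
  by_cases hS : ∀ x ∈ S, ∀ y ∈ S, ¬ T.Adj x y
  · have h1 := ha S hS
    let e := Fintype.equivFin X
    refine ⟨fun v => (e v).1, fun u _ v _ huv h => absurd (e.injective (Fin.ext h)) huv, ?_⟩
    have := Finset.card_image_le (s := S) (f := fun v => (e v).1)
    omega
  · push Not at hS
    obtain ⟨x, hx, y, hy, hxy⟩ := hS
    have hss : (S.erase x).erase y ⊂ S :=
      lt_of_le_of_lt (Finset.erase_subset _ _) (Finset.erase_ssubset hx)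
    obtain ⟨f, hf1, hf2⟩ := ih _ hss
    have hyx : y ∈ S.erase x := Finset.mem_erase.2 ⟨hxy.ne', hy⟩
    have hcard : ((S.erase x).erase y).card + 2 = S.card := by
      rw [Finset.card_erase_of_mem hyx, Finset.card_erase_of_mem hx]
      have : 1 < S.card := Finset.one_lt_card.2 ⟨x, hx, y, hy, hxy.ne⟩
      omega
    let N := (univ.sup f) + 1
    have hN : ∀ v, f v < N := fun v => Nat.lt_succ_of_le (Finset.le_sup (mem_univ v))
    refine ⟨fun v => if v = x ∨ v = y then N else f v, ?_, ?_⟩
    · intro u hu v hv huv h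
      by_cases h1 : u = x ∨ u = y <;> by_cases h2 : v = x ∨ v = y
      · rcases h1 with rfl | rfl <;> rcases h2 with rfl | rfl
        · exact absurd rfl huv
        · exact hxy
        · exact hxy.symm
        · exact absurd rfl huv
      · simp only [h1, h2, if_true, if_false] at h
        exact absurd h (hN v).ne'
      · simp only [h1, h2, if_true, if_false] at h
        exact absurd h (hN u).ne
      · simp only [h1, h2, if_false] at h
        rw [not_or] at h1 h2
        exact hf1 u (Finset.mem_erase.2 ⟨h1.2, Finset.mem_erase.2 ⟨h1.1, hu⟩⟩)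
          v (Finset.mem_erase.2 ⟨h2.2, Finset.mem_erase.2 ⟨h2.1, hv⟩⟩) huv h
    · have hsub : S.image (fun v => if v = x ∨ v = y then N else f v)
          ⊆ insert N (((S.erase x).erase y).image f) := by
        intro c hc
        obtain ⟨v, hv, rfl⟩ := Finset.mem_image.1 hc
        by_cases h1 : v = x ∨ v = y
        · simp only [h1, if_true]
          exact mem_insert_self _ _
        · simp only [h1, if_false]
          rw [not_or] at h1
          exact mem_insert_of_mem (mem_image_of_mem _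
            (Finset.mem_erase.2 ⟨h1.2, Finset.mem_erase.2 ⟨h1.1, hv⟩⟩))
      have h3 := (Finset.card_le_card hsub).trans (Finset.card_insert_le _ _)
      omega

/-- The discrepancy of the complement of a triangle-free graph. -/
theorem disc_le (htri : ∀ x y z, T.Adj x y → T.Adj y z → ¬ T.Adj x z)
    (ha : ∀ I : Finset X, (∀ x ∈ I, ∀ y ∈ I, ¬ T.Adj x y) → I.card ≤ a) :
    4 * chromaticDiscrepancy Tᶜ ≤ Fintype.card X + a := by
  obtain ⟨f, hf1, hf2⟩ := exists_coloring ha univ
  rw [Finset.card_univ] at hf2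
  let c : (Tᶜ).Coloring ℕ := SimpleGraph.Coloring.mk f (by
    intro u v huv h
    rw [SimpleGraph.compl_adj] at huv
    exact huv.2 (hf1 u (mem_univ _) v (mem_univ _) huv.1 h))
  have hle : chromaticDiscrepancy Tᶜ ≤ (univ.image f).card / 2 := by
    refine Nat.sInf_le ⟨c, fun S => ?_⟩
    obtain ⟨m, hm⟩ : ∃ m : ℕ, (Tᶜ.induce (S : Set X)).chromaticNumber = m := by
      have : (Tᶜ.induce (S : Set X)).chromaticNumber ≠ ⊤ :=
        SimpleGraph.chromaticNumber_ne_top_iff_exists.2 ⟨_, SimpleGraph.colorable_of_fintype _⟩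
      exact ⟨_, (ENat.natCast_toNat this).symm⟩
    have hcol : (Tᶜ.induce (S : Set X)).Colorable m :=
      SimpleGraph.chromaticNumber_le_iff_colorable.1 hm.le
    have h1 := card_le_of_colorable htri S hcol
    have h2 : (S.image c).card ≤ S.card := Finset.card_image_le
    have h3 : (S.image c).card ≤ (univ.image f).card :=
      Finset.card_le_card (Finset.image_subset_image (Finset.subset_univ S))
    rw [hm]
    have : (S.image c).card ≤ m + (univ.image f).card / 2 := by omega
    exact_mod_cast this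
  omega

theorem cliqueNum_le (ha : ∀ I : Finset X, (∀ x ∈ I, ∀ y ∈ I, ¬ T.Adj x y) → I.card ≤ a) :
    (Tᶜ).cliqueNum ≤ a := by
  obtain ⟨s, hs⟩ := (Tᶜ).exists_isNClique_cliqueNum
  rw [← hs.card_eq]
  refine ha s fun x hx y hy h => ?_
  have := hs.isClique hx hy h.ne
  rw [SimpleGraph.compl_adj] at this
  exact this.2 h

end

theorem chromatic_eq {X : Type} [Fintype X] (G : SimpleGraph X) :
    ∃ k : ℕ, G.chromaticNumber = k ∧ G.Colorable k := by
  have h : G.chromaticNumber ≠ ⊤ :=
    SimpleGraph.chromaticNumber_ne_top_iff_exists.2 ⟨_, SimpleGraph.colorable_of_fintype _⟩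
  refine ⟨G.chromaticNumber.toNat, (ENat.natCast_toNat h).symm, ?_⟩
  exact SimpleGraph.chromaticNumber_le_iff_colorable.1 (ENat.natCast_toNat h).symm.le

theorem main (ε : ℝ) (hε : 0 < ε) : ∃ (V : Type) (_ : Fintype V) (G : SimpleGraph V) (k : ℕ),
    G.chromaticNumber = k ∧ G.cliqueNum < k ∧
    (chromaticDiscrepancy G : ℝ) ≤ (1 / 2 + ε) * ((k : ℝ) - G.cliqueNum) := by
  obtain ⟨X, _, _, T, a, ha0, htri, ha, hR⟩ :=
    Q278.FracMyc.exists_triangleFree (3 + (3 / 2 + 2 * ε) / ε)
  obtain ⟨k, hk, hcol⟩ := chromatic_eq Tᶜ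
  have h1 : Fintype.card X ≤ 2 * k := by
    have := card_le_of_colorable htri (univ : Finset X) (m := k) (by
      obtain ⟨c⟩ := hcol
      exact ⟨SimpleGraph.Coloring.mk (fun v => c v.1) (fun h => c.valid h)⟩)
    rwa [Finset.card_univ] at this
  have h2 := cliqueNum_le ha
  have h3 := disc_le htri ha
  have ha' : (0 : ℝ) < a := by exact_mod_cast ha0
  have h1' : (Fintype.card X : ℝ) ≤ 2 * k := by exact_mod_cast h1
  have h2' : ((Tᶜ).cliqueNum : ℝ) ≤ a := by exact_mod_cast h2
  have h3' : 4 * (chromaticDiscrepancy Tᶜ : ℝ) ≤ Fintype.card X + a := by exact_mod_cast h3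
  have hp : 0 < (3 / 2 + 2 * ε) / ε := by positivity
  have hR1 : 3 * (a : ℝ) ≤ Fintype.card X := by nlinarith
  have hR2 : (3 / 2 + 2 * ε) * a ≤ ε * Fintype.card X := by
    have : (3 / 2 + 2 * ε) / ε * a ≤ Fintype.card X := by nlinarith
    have h := mul_le_mul_of_nonneg_left this hε.le
    have e : ε * ((3 / 2 + 2 * ε) / ε * a) = (3 / 2 + 2 * ε) * a := by
      field_simp
    rwa [e] at h
  refine ⟨X, inferInstance, Tᶜ, k, hk, ?_, ?_⟩
  · have : ((Tᶜ).cliqueNum : ℝ) < k := by nlinarith
    exact_mod_cast this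
  · have h4 : (Fintype.card X : ℝ) / 2 - a ≤ (k : ℝ) - (Tᶜ).cliqueNum := by linarith
    have h5 := mul_le_mul_of_nonneg_left h4 (show (0 : ℝ) ≤ 1 / 2 + ε by positivity)
    nlinarith

/-- **Main theorem.** (1) For every `ε > 0` there is a finite graph `G` with `ω(G) < χ(G)` and
`φ(G) ≤ (1/2 + ε) (χ(G) - ω(G))`, so the constant `1/2` in the known inequality
`φ(G) ≥ (χ(G) - ω(G)) / 2` cannot be improved.
(2) In particular the inequality `φ(G) ≥ χ(G) - ω(G)` fails for some finite graph `G`. -/
theorem result :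
    (∀ ε : ℝ, 0 < ε → ∃ (V : Type) (_ : Fintype V) (G : SimpleGraph V) (k : ℕ),
      G.chromaticNumber = k ∧ G.cliqueNum < k ∧
      (chromaticDiscrepancy G : ℝ) ≤ (1 / 2 + ε) * ((k : ℝ) - G.cliqueNum)) ∧
    (∃ (V : Type) (_ : Fintype V) (G : SimpleGraph V),
      (chromaticDiscrepancy G : ℕ∞) + (G.cliqueNum : ℕ∞) < G.chromaticNumber) := by
  refine ⟨main, ?_⟩
  obtain ⟨V, hV, G, k, hk, hlt, hle⟩ := main (1 / 4) (by norm_num)
  refine ⟨V, hV, G, ?_⟩
  have hlt' : (G.cliqueNum : ℝ) < k := by exact_mod_cast hlt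
  have h : (chromaticDiscrepancy G : ℝ) + G.cliqueNum < k := by nlinarith
  have h' : chromaticDiscrepancy G + G.cliqueNum < k := by exact_mod_cast h
  rw [hk]
  exact_mod_cast h'

end Pool.Agent.Results.MP_2248a2_co.HalfIsSharp
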